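import Pool.Agent.H361R2.PA.First

set_option autoImplicit false
set_option maxHeartbeats 4000000

namespace Pool.Agent.Results.MP_0ec542_nt.FirstTwinIndices

open Classical in
/-- for all large `X` some even `N` in `(X, 2X]` is such that every representation `N = p + q` with
`p`, `q` and `p_{q+2} + 2` prime has at least `c log X log log X` smaller primes `q'` with
`p_{q'+2} + 2` prime (`p_k = Nat.nth Nat.Prime (k - 1)`) -/
theorem result : ∃ c : ℝ, 0 < c ∧ ∃ X₀ : ℝ, ∀ X : ℝ, X₀ ≤ X →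
    ∃ n : ℕ, X < 2 * n ∧ (2 * n : ℝ) ≤ 2 * X ∧
      ∀ p q : ℕ, p.Prime → q.Prime → (Nat.nth Nat.Prime (q + 1) + 2).Prime → p + q = 2 * n →
        c * (Real.log X * Real.log (Real.log X)) <
          ((Finset.range q).filter
            (fun q' => q'.Prime ∧ (Nat.nth Nat.Prime (q' + 1) + 2).Prime)).card := by
  obtain ⟨c, hc, X₀, h⟩ := Pool.Agent.H361R2.PA.first_elements 2 (by norm_num) 0
  refine ⟨c, hc, X₀, fun X hX => ?_⟩
  obtain ⟨N, hN1, hN2, hN3, hN4⟩ := h X hX
    (fun q => q.Prime ∧ (Nat.nth Nat.Prime (q + 1) + 2).Prime)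
  have h2 := hN3 2 Nat.prime_two (dvd_refl 2)
  have hNn : N = 2 * (N / 2) := by omega
  refine ⟨N / 2, ?_, ?_, ?_⟩
  · have : (N : ℝ) = 2 * ((N / 2 : ℕ) : ℝ) := by exact_mod_cast hNn
    linarith
  · have : (N : ℝ) = 2 * ((N / 2 : ℕ) : ℝ) := by exact_mod_cast hNn
    linarith
  · intro p q hp hq hq2 hpq
    have h3 := hN4 p q hp (by omega) ⟨hq, hq2⟩
    rw [Nat.count_eq_card_filter_range] at h3
    convert h3

end Pool.Agent.Results.MP_0ec542_nt.FirstTwinIndices
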